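import Mathlib

open Finset

namespace Pool.Agent.Results.MP_406a31_an.Upper3

/-- Diagonal entries times 1000, as Gaussian integers. -/
def A : Fin 3 → Fin 3 → GaussianInt := ![![⟨1000, 0⟩, ⟨-348, 36⟩, ⟨-311, -13⟩], ![⟨300, 88⟩, ⟨1000, 0⟩, ⟨121, -330⟩], ![⟨347, 45⟩, ⟨-53, -308⟩, ⟨1000, 0⟩]]

lemma h1 : ∀ j i, (A j i).norm ≤ 1000 ^ 2 := by decide +kernel

lemma h2 : ∀ j, A j j = 1000 := by decide +kernel

lemma h3 : ∀ x0 x1 x2 : Fin 3,
    (∑ p : Equiv.Perm (Fin 3), ∏ i, A (p i) (![x0, x1, x2] i)).norm ≤ 660000000 ^ 2 := by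
  decide +kernel

theorem result : ∃ a : Fin 3 → Fin 3 → ℂ, (∀ j i, ‖a j i‖ ≤ 1) ∧ (∀ j, a j j = 1) ∧
    ∀ f : (Fin 3 → Fin 3) → ℂ,
      ∑ x : Fin 3 → Fin 3, ‖(1 / 6 : ℂ) * ∑ p : Equiv.Perm (Fin 3), (∏ i, a (p i) (x i)) * f x‖ ^ 2
        ≤ (11 / 100 : ℝ) ^ 2 * ∑ x : Fin 3 → Fin 3, ‖f x‖ ^ 2 := by
  have nn : ∀ (z : GaussianInt) (b : ℕ), z.norm ≤ (b : ℤ) ^ 2 → ‖(z : ℂ)‖ ≤ b := by
    intro z b h
    refine (pow_le_pow_iff_left₀ (norm_nonneg _) (by positivity) two_ne_zero).1 ?_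
    rw [← Complex.normSq_eq_norm_sq, ← GaussianInt.intCast_real_norm]
    exact_mod_cast h
  refine ⟨fun j i => (A j i : ℂ) / 1000, fun j i => ?_, fun j => ?_, fun f => ?_⟩
  · have := nn _ 1000 (h1 j i)
    rw [norm_div, div_le_one (by simp)]
    simpa using this
  · simp only [h2]
    have : ((1000 : GaussianInt) : ℂ) = 1000 := map_ofNat GaussianInt.toComplex 1000
    rw [this]; norm_num
  · rw [Finset.mul_sum]
    refine Finset.sum_le_sum fun x _ => ?_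
    have hx : x = ![x 0, x 1, x 2] := by ext i; fin_cases i <;> rfl
    have a := nn _ 660000000 (h3 (x 0) (x 1) (x 2))
    rw [← hx, map_sum] at a
    simp only [map_prod] at a
    have e : (1 / 6 : ℂ) * ∑ p : Equiv.Perm (Fin 3), (∏ i, (A (p i) (x i) : ℂ) / 1000) * f x
        = (∑ p : Equiv.Perm (Fin 3), ∏ i, (A (p i) (x i) : ℂ)) * f x / 6000000000 := by
      simp only [Finset.prod_div_distrib, Finset.prod_const, Finset.card_univ, Fintype.card_fin]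
      rw [← Finset.sum_mul, ← Finset.sum_div]
      ring
    rw [e, ← mul_pow]
    refine pow_le_pow_left₀ (norm_nonneg _) ?_ 2
    rw [norm_div, norm_mul]
    have b := mul_le_mul_of_nonneg_right a (norm_nonneg (f x))
    have c : ‖(6000000000 : ℂ)‖ = 6000000000 := by simp
    rw [c]
    push_cast at b
    linarith

end Pool.Agent.Results.MP_406a31_an.Upper3
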